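import Mathlib
import Pool.Agent.Helper29.MF.T46

/-!
# Return sets for orbits which lie on a plane curve

`f : P^2 → P^2` an endomorphism over the complex numbers, `H = 0` a curve which contains the orbit
of `a`: all return sets are finite unions of arithmetic progressions.

A prime homogeneous ideal whose quotient has dimension at most one has at most one zero in
projective space. So a closed set of dimension zero meets an infinite orbit at finitely many times.
By `prime_case` the return set of a component of `H = 0` is eventually periodic or its gaps tend to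
infinity; these sets cover everything, so the eventually periodic ones cover everything up to a
finite set.
-/

set_option autoImplicit false

namespace Pool.Agent.Helper36.NI

open MvPolynomial
open Pool.Agent.Helper38.TQ (IsEndo eval_smul_hom)
open Pool.Agent.Helper38.PC (FU EP ep_mul)
open Pool.Agent.Helper89.TNG (Gaps ret Forms ret_forms krull_quot prime_case minimal_hom ep_biUnion)

section line

variable {K : Type} [Field K] {N : ℕ}

/-- Restriction to the line through the origin and `u`. -/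
noncomputable def lineHom (u : Fin (N + 1) → K) :
    MvPolynomial (Fin (N + 1)) K →ₐ[K] Polynomial K :=
  aeval fun i => Polynomial.C (u i) * Polynomial.X

theorem lineHom_hom (u : Fin (N + 1) → K) {g : MvPolynomial (Fin (N + 1)) K} {e : ℕ}
    (hg : g.IsHomogeneous e) :
    lineHom u g = Polynomial.C (eval u g) * Polynomial.X ^ e := by
  rw [lineHom, aeval_def, eval₂_eq', eval_eq', map_sum, Finset.sum_mul]
  refine Finset.sum_congr rfl fun m hm => ?_
  have h1 : ∑ i, m i = e := by
    have h2 := hg (mem_support_iff.1 hm)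
    rw [Finsupp.weight_apply, Finsupp.sum_fintype _ _ (fun i => by simp)] at h2
    simpa using h2
  rw [Finset.prod_congr rfl fun i _ => mul_pow (Polynomial.C (u i)) Polynomial.X (m i),
    Finset.prod_mul_distrib, Finset.prod_pow_eq_pow_sum, h1, Polynomial.algebraMap_eq, map_mul,
    map_prod, mul_assoc]
  simp only [map_pow]

theorem lineHom_surj {u : Fin (N + 1) → K} (hu : u ≠ 0) : Function.Surjective (lineHom u) := by
  obtain ⟨i, hi⟩ := Function.ne_iff.1 hu
  rw [Pi.zero_apply] at hi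
  have h1 : Polynomial.X ∈ (lineHom u).range := by
    refine ⟨C (u i)⁻¹ * X i, ?_⟩
    change lineHom u (C (u i)⁻¹ * X i) = _
    rw [lineHom, map_mul, aeval_X, algHom_C, Polynomial.algebraMap_eq, ← mul_assoc,
      ← Polynomial.C_mul, inv_mul_cancel₀ hi, Polynomial.C_1, one_mul]
  rw [← AlgHom.range_eq_top, ← top_le_iff, ← Polynomial.adjoin_X]
  exact Algebra.adjoin_le (Set.singleton_subset_iff.2 h1)

theorem line_eq {P : Ideal (MvPolynomial (Fin (N + 1)) K)} (hP : P.IsPrime)
    (hhom : ∀ g ∈ P, ∀ m, homogeneousComponent m g ∈ P)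
    (hdim : ringKrullDim (MvPolynomial (Fin (N + 1)) K ⧸ P) ≤ (0 + 1 : ℕ))
    {u : Fin (N + 1) → K} (hu : u ≠ 0) (hz : ∀ g ∈ P, eval u g = 0) :
    P = RingHom.ker (lineHom u : MvPolynomial (Fin (N + 1)) K →+* Polynomial K) := by
  have hle : P ≤ RingHom.ker (lineHom u : MvPolynomial (Fin (N + 1)) K →+* Polynomial K) := by
    intro g hg
    rw [RingHom.mem_ker]
    change lineHom u g = 0
    rw [← sum_homogeneousComponent g, map_sum]
    refine Finset.sum_eq_zero fun m _ => ?_
    rw [lineHom_hom u (homogeneousComponent_isHomogeneous m g), hz _ (hhom g hg m), map_zero,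
      zero_mul]
  by_contra hne
  have hnle : ¬ RingHom.ker (lineHom u : MvPolynomial (Fin (N + 1)) K →+* Polynomial K) ≤ P :=
    fun h => hne (le_antisymm hle h)
  have h1 := krull_quot hle hnle hdim
  have h2 := ringKrullDim_eq_of_ringEquiv (RingHom.quotientKerEquivOfSurjective
    (f := (lineHom u : MvPolynomial (Fin (N + 1)) K →+* Polynomial K)) (lineHom_surj hu))
  rw [h2, Polynomial.ringKrullDim_of_isNoetherianRing, ringKrullDim_eq_zero_of_field,
    zero_add] at h1
  have h3 : ((1 : ℕ) : WithBot ℕ∞) ≤ ((0 : ℕ) : WithBot ℕ∞) := by simpa using h1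
  rw [Nat.cast_le] at h3
  omega

/-- A prime homogeneous ideal whose quotient has dimension at most one has at most one zero in
projective space. -/
theorem smul_of_prime {P : Ideal (MvPolynomial (Fin (N + 1)) K)} (hP : P.IsPrime)
    (hhom : ∀ g ∈ P, ∀ m, homogeneousComponent m g ∈ P)
    (hdim : ringKrullDim (MvPolynomial (Fin (N + 1)) K ⧸ P) ≤ (0 + 1 : ℕ))
    {u v : Fin (N + 1) → K} (hu : u ≠ 0) (hv : v ≠ 0) (hzu : ∀ g ∈ P, eval u g = 0)
    (hzv : ∀ g ∈ P, eval v g = 0) : ∃ c : K, c ≠ 0 ∧ v = c • u := by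
  have h1 := line_eq hP hhom hdim hu hzu
  have h2 := line_eq hP hhom hdim hv hzv
  have h3 : ∀ i j, v i * u j = v j * u i := by
    intro i j
    have h4 : X i * C (u j) - X j * C (u i) ∈
        RingHom.ker (lineHom u : MvPolynomial (Fin (N + 1)) K →+* Polynomial K) := by
      rw [RingHom.mem_ker]
      change lineHom u (X i * C (u j) - X j * C (u i)) = 0
      rw [lineHom, map_sub, map_mul, map_mul, aeval_X, aeval_X, algHom_C, algHom_C,
        Polynomial.algebraMap_eq]
      ring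
    rw [← h1, h2, RingHom.mem_ker] at h4
    change lineHom v (X i * C (u j) - X j * C (u i)) = 0 at h4
    rw [lineHom, map_sub, map_mul, map_mul, aeval_X, aeval_X, algHom_C, algHom_C,
      Polynomial.algebraMap_eq] at h4
    have h5 : Polynomial.C (v i * u j - v j * u i) * Polynomial.X = 0 := by
      rw [Polynomial.C_sub, Polynomial.C_mul, Polynomial.C_mul, ← h4]
      ring
    have h6 := (mul_eq_zero.1 h5).resolve_right Polynomial.X_ne_zero
    exact sub_eq_zero.1 (Polynomial.C_eq_zero.1 h6)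
  obtain ⟨j, hj⟩ := Function.ne_iff.1 hu
  rw [Pi.zero_apply] at hj
  have h4 : v = (v j / u j) • u := by
    funext i
    rw [Pi.smul_apply, smul_eq_mul, div_mul_eq_mul_div, eq_div_iff hj]
    exact h3 i j
  refine ⟨v j / u j, ?_, h4⟩
  intro h0
  apply hv
  rw [h4, h0, zero_smul]

end line

theorem ep_of_finite {R : Set ℕ} (hR : R.Finite) : EP R := by
  obtain ⟨n₁, hn⟩ := hR.bddAbove
  refine ⟨n₁ + 1, 1, one_pos, fun n hn' => ⟨fun h => ?_, fun h => ?_⟩⟩
  · have := hn h
    omega
  · have := hn h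
    omega

section orbit

variable {K : Type} [Field K] {N : ℕ} {F : Fin (N + 1) → MvPolynomial (Fin (N + 1)) K}
  {y : ℕ → Fin (N + 1) → K}

/-- If two points of the orbit agree in projective space, all return sets are eventually
periodic. -/
theorem ep_of_preper {d : ℕ} (hF : ∀ i, (F i).IsHomogeneous d)
    (hy : ∀ n, y (n + 1) = fun i => eval (y n) (F i)) {m l : ℕ} (hl : 0 < l) {c : K} (hc : c ≠ 0)
    (h : y (m + l) = c • y m) {S : Set (MvPolynomial (Fin (N + 1)) K)} (hS : Forms S) :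
    EP (ret y S) := by
  have h1 : ∀ k, ∃ c : K, c ≠ 0 ∧ y (m + k + l) = c • y (m + k) := by
    intro k
    induction k with
    | zero => exact ⟨c, hc, by simpa using h⟩
    | succ k ih =>
      obtain ⟨c, hc, h⟩ := ih
      refine ⟨c ^ d, pow_ne_zero _ hc, ?_⟩
      rw [show m + (k + 1) + l = m + k + l + 1 by ring, hy, h, ← add_assoc, hy]
      funext i
      rw [Pi.smul_apply, smul_eq_mul]
      exact eval_smul_hom (hF i) c _
  refine ⟨m, l, hl, fun n hn => ?_⟩
  obtain ⟨k, rfl⟩ := Nat.exists_eq_add_of_le hn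
  obtain ⟨c, hc, h⟩ := h1 k
  constructor
  · intro h2 g hg
    obtain ⟨e, he⟩ := hS g hg
    rw [h, eval_smul_hom he, h2 g hg, mul_zero]
  · intro h2 g hg
    obtain ⟨e, he⟩ := hS g hg
    have h3 := h2 g hg
    rw [h, eval_smul_hom he] at h3
    exact (mul_eq_zero.1 h3).resolve_left (pow_ne_zero _ hc)

theorem ret_minimal {S : Set (MvPolynomial (Fin (N + 1)) K)} (n : ℕ) :
    n ∈ ret y S ↔ ∃ P ∈ (Ideal.span S).minimalPrimes, n ∈ ret y (P : Set _) := by
  constructor
  · intro h
    have h1 : Ideal.span S ≤ RingHom.ker (eval (y n)) := by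
      rw [Ideal.span_le]
      exact fun g hg => h g hg
    have h2 : (RingHom.ker (eval (y n))).IsPrime := RingHom.ker_isPrime _
    obtain ⟨P, hP, hle⟩ := Ideal.exists_minimalPrimes_le h1
    exact ⟨P, hP, fun g hg => hle hg⟩
  · rintro ⟨P, hP, h⟩ g hg
    exact h g (hP.1.2 (Ideal.subset_span hg))

/-- Closed sets of dimension zero. -/
theorem ep_zero {d : ℕ} (hF : ∀ i, (F i).IsHomogeneous d)
    (hy : ∀ n, y (n + 1) = fun i => eval (y n) (F i)) (hne : ∀ n, y n ≠ 0)
    {S : Set (MvPolynomial (Fin (N + 1)) K)} (hS : Forms S)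
    (hdim : ringKrullDim (MvPolynomial (Fin (N + 1)) K ⧸ Ideal.span S) ≤ (1 : ℕ)) :
    EP (ret y S) := by
  classical
  by_cases hpre : ∃ m l, 0 < l ∧ ∃ c : K, c ≠ 0 ∧ y (m + l) = c • y m
  · obtain ⟨m, l, hl, c, hc, h⟩ := hpre
    exact ep_of_preper hF hy hl hc h hS
  apply ep_of_finite
  have hfin : (Ideal.span S).minimalPrimes.Finite :=
    Ideal.finite_minimalPrimes_of_isNoetherianRing _ _
  have h1 : ret y S = ⋃ P ∈ (Ideal.span S).minimalPrimes, ret y (P : Set _) := by
    ext n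
    rw [ret_minimal, Set.mem_iUnion₂]
    simp only [exists_prop]
  rw [h1]
  refine hfin.biUnion fun P hP => ?_
  apply Set.Subsingleton.finite
  have hdimP : ringKrullDim (MvPolynomial (Fin (N + 1)) K ⧸ P) ≤ (0 + 1 : ℕ) :=
    (ringKrullDim_le_of_surjective (Ideal.Quotient.factor hP.1.2)
      (Ideal.Quotient.factor_surjective _)).trans hdim
  have key : ∀ m n, m ∈ ret y (P : Set _) → n ∈ ret y (P : Set _) → ¬ m < n := by
    intro m n hm hn hmn
    obtain ⟨l, rfl⟩ := Nat.exists_eq_add_of_lt hmn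
    obtain ⟨c, hc, h⟩ := smul_of_prime hP.1.1 (minimal_hom ⟨S, hS, rfl⟩ hP) hdimP (hne m)
      (hne _) (fun g hg => hm g hg) (fun g hg => hn g hg)
    exact hpre ⟨m, l + 1, Nat.succ_pos l, c, hc, by rw [← add_assoc]; exact h⟩
  intro m hm n hn
  rcases lt_trichotomy m n with h | h | h
  · exact absurd h (key m n hm hn)
  · exact h
  · exact absurd h (key n m hn hm)

end orbit

/-- An eventually periodic set which together with finitely many sets whose gaps tend to infinity
covers everything contains all large numbers. -/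
theorem eventually_mem {ι : Type} {R : Set ℕ} (hR : EP R) (B : Finset ι) {E : ι → Set ℕ}
    (hE : ∀ i ∈ B, Gaps (E i)) (hcov : ∀ n, n ∈ R ∨ ∃ i ∈ B, n ∈ E i) :
    ∃ n₀, ∀ n, n₀ ≤ n → n ∈ R := by
  classical
  obtain ⟨n₁, M, hM, h⟩ := hR
  refine ⟨n₁, fun n hn => ?_⟩
  by_contra hnR
  have h1 : ∀ k, n + M * k ∉ R := fun k hk => hnR ((ep_mul h k n hn).2 hk)
  have h2 : ∀ k, ∃ i, i ∈ B ∧ n + M * k ∈ E i := fun k => by
    obtain ⟨i, hi, hi'⟩ := (hcov (n + M * k)).resolve_left (h1 k)
    exact ⟨i, hi, hi'⟩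
  choose φ hφB hφ using h2
  set G : Set ℕ := ⋃ i ∈ B, ⋃ l ∈ Finset.Icc 1 (M * B.card), {m | m ∈ E i ∧ m + l ∈ E i} with hG
  have hGfin : G.Finite := by
    refine Set.Finite.biUnion B.finite_toSet fun i hi => ?_
    refine Set.Finite.biUnion (Finset.finite_toSet _) fun l hl => ?_
    exact hE i hi l (Finset.mem_Icc.1 (Finset.mem_coe.1 hl)).1
  obtain ⟨b, hb⟩ := hGfin.bddAbove
  -- pigeonhole
  obtain ⟨x, hx, z, hz, hxz, hφxz⟩ := Finset.exists_ne_map_eq_of_card_lt_of_maps_to
    (s := Finset.Icc (b + 1) (b + 1 + B.card)) (t := B) (f := φ)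
    (by rw [Nat.card_Icc]; omega) (fun k _ => hφB k)
  have key : ∀ x z, x ∈ Finset.Icc (b + 1) (b + 1 + B.card) →
      z ∈ Finset.Icc (b + 1) (b + 1 + B.card) → φ x = φ z → ¬ x < z := by
    intro x z hx hz hxz hlt
    rw [Finset.mem_Icc] at hx hz
    obtain ⟨l, rfl⟩ := Nat.exists_eq_add_of_lt hlt
    have h3 : n + M * x ∈ G := by
      rw [hG, Set.mem_iUnion₂]
      refine ⟨φ x, hφB x, ?_⟩
      rw [Set.mem_iUnion₂]
      refine ⟨M * (l + 1), ?_, hφ x, ?_⟩
      · rw [Finset.mem_Icc]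
        exact ⟨Nat.mul_pos hM (Nat.succ_pos l), Nat.mul_le_mul_left M (by omega)⟩
      · have h4 := hφ (x + l + 1)
        rw [← hxz] at h4
        rwa [show n + M * x + M * (l + 1) = n + M * (x + l + 1) by ring]
    have h4 := hb h3
    have h5 : x ≤ M * x := Nat.le_mul_of_pos_left x hM
    omega
  rcases lt_or_gt_of_ne hxz with h3 | h3
  · exact key x z hx hz hφxz h3
  · exact key z x hz hx hφxz.symm h3

section curve

variable {K : Type} [Field K] {N : ℕ} {F : Fin (N + 1) → MvPolynomial (Fin (N + 1)) K}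
  {y : ℕ → Fin (N + 1) → K}

/-- Orbits in a closed set of dimension at most one. -/
theorem ep_curve {d : ℕ} (hF : ∀ i, (F i).IsHomogeneous d)
    (hy : ∀ n, y (n + 1) = fun i => eval (y n) (F i)) (hne : ∀ n, y n ≠ 0)
    {T : Set (MvPolynomial (Fin (N + 1)) K)} (hT : Forms T) (hn : ∀ n, n ∈ ret y T)
    (hdim : ringKrullDim (MvPolynomial (Fin (N + 1)) K ⧸ Ideal.span T) ≤ (1 + 1 : ℕ))
    {S : Set (MvPolynomial (Fin (N + 1)) K)} (hS : Forms S) : EP (ret y S) := by
  classical
  have hfin : (Ideal.span T).minimalPrimes.Finite :=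
    Ideal.finite_minimalPrimes_of_isNoetherianRing _ _
  have hdimP : ∀ P ∈ (Ideal.span T).minimalPrimes,
      ringKrullDim (MvPolynomial (Fin (N + 1)) K ⧸ P) ≤ (1 + 1 : ℕ) := fun P hP =>
    (ringKrullDim_le_of_surjective (Ideal.Quotient.factor hP.1.2)
      (Ideal.Quotient.factor_surjective _)).trans hdim
  have hdml : ∀ S : Set (MvPolynomial (Fin (N + 1)) K), Forms S →
      ringKrullDim (MvPolynomial (Fin (N + 1)) K ⧸ Ideal.span S) ≤ (1 : ℕ) → EP (ret y S) :=
    fun S hS hd => ep_zero hF hy hne hS hd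
  have hcase : ∀ P ∈ (Ideal.span T).minimalPrimes,
      EP (ret y (P : Set _)) ∨ Gaps (ret y (P : Set _)) := fun P hP =>
    prime_case hF hy (m := 1) hdml hP.1.1 (minimal_hom ⟨T, hT, rfl⟩ hP) (hdimP P hP)
  obtain ⟨A, hA⟩ : ∃ A : Finset (Ideal (MvPolynomial (Fin (N + 1)) K)),
      ∀ P, P ∈ A ↔ P ∈ (Ideal.span T).minimalPrimes ∧ EP (ret y (P : Set _)) :=
    ⟨hfin.toFinset.filter (fun P : Ideal (MvPolynomial (Fin (N + 1)) K) =>
      EP (ret y (P : Set _))), fun P => by rw [Finset.mem_filter, Set.Finite.mem_toFinset]⟩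
  obtain ⟨B, hB⟩ : ∃ B : Finset (Ideal (MvPolynomial (Fin (N + 1)) K)),
      ∀ P, P ∈ B ↔ P ∈ (Ideal.span T).minimalPrimes ∧ ¬ EP (ret y (P : Set _)) :=
    ⟨hfin.toFinset.filter (fun P : Ideal (MvPolynomial (Fin (N + 1)) K) =>
      ¬ EP (ret y (P : Set _))), fun P => by rw [Finset.mem_filter, Set.Finite.mem_toFinset]⟩
  have hRA : EP (⋃ P ∈ A, ret y (P : Set _)) := ep_biUnion A fun P hP => ((hA P).1 hP).2
  obtain ⟨n₀, hn₀⟩ := eventually_mem hRA B (E := fun P => ret y (P : Set _))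
    (fun P hP => (hcase P ((hB P).1 hP).1).resolve_left ((hB P).1 hP).2) (by
      intro n
      obtain ⟨P, hP, hnP⟩ := (ret_minimal n).1 (hn n)
      by_cases h1 : EP (ret y (P : Set _))
      · left
        rw [Set.mem_iUnion₂]
        exact ⟨P, (hA P).2 ⟨hP, h1⟩, hnP⟩
      · exact Or.inr ⟨P, (hB P).2 ⟨hP, h1⟩, hnP⟩)
  -- the traces on the components
  have htr : ∀ P ∈ A, EP (ret y (P : Set _) ∩ ret y S) := by
    intro P hPA
    obtain ⟨hP, hEP⟩ := (hA P).1 hPA
    have hhom := minimal_hom ⟨T, hT, rfl⟩ hP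
    by_cases h1 : S ⊆ (P : Set _)
    · have h2 : ret y (P : Set _) ∩ ret y S = ret y (P : Set _) :=
        Set.inter_eq_left.2 fun n hn g hg => hn g (h1 hg)
      rw [h2]
      exact hEP
    set PF : Set (MvPolynomial (Fin (N + 1)) K) := {g | g ∈ P ∧ ∃ e, g.IsHomogeneous e} with hPF
    have hspan : P ≤ Ideal.span PF := by
      intro g hg
      rw [← sum_homogeneousComponent g]
      exact Ideal.sum_mem _ fun i _ => Ideal.subset_span
        ⟨hhom g hg i, i, homogeneousComponent_isHomogeneous i g⟩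
    have hle : P ≤ Ideal.span (PF ∪ S) := hspan.trans (Ideal.span_mono Set.subset_union_left)
    have hnle : ¬ Ideal.span (PF ∪ S) ≤ P := fun h =>
      h1 fun g hg => h (Ideal.subset_span (Or.inr hg))
    have hPp : P.IsPrime := hP.1.1
    have h2 := hdml (PF ∪ S) (by
      rintro g (hg | hg)
      · exact hg.2
      · exact hS g hg) (krull_quot hle hnle (hdimP P hP))
    have h3 : ret y (P : Set _) ∩ ret y S = ret y (PF ∪ S) := by
      ext n
      rw [Set.mem_inter_iff, ← ret_forms hhom]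
      constructor
      · rintro ⟨h4, h5⟩ g (hg | hg)
        · exact h4 g hg
        · exact h5 g hg
      · exact fun h4 => ⟨fun g hg => h4 g (Or.inl hg), fun g hg => h4 g (Or.inr hg)⟩
    rw [h3]
    exact h2
  obtain ⟨n₁, M, hM, h⟩ := ep_biUnion A htr
  have hiff : ∀ n, n₀ ≤ n → (n ∈ ret y S ↔ n ∈ ⋃ P ∈ A, (ret y (P : Set _) ∩ ret y S)) := by
    intro n hn
    rw [Set.mem_iUnion₂]
    constructor
    · intro hS'
      obtain ⟨P, hP, hnP⟩ := Set.mem_iUnion₂.1 (hn₀ n hn)
      exact ⟨P, hP, hnP, hS'⟩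
    · rintro ⟨P, hP, -, hS'⟩
      exact hS'
  refine ⟨max n₀ n₁, M, hM, fun n hn => ?_⟩
  rw [hiff n ((le_max_left _ _).trans hn), hiff (n + M) (((le_max_left _ _).trans hn).trans
    (Nat.le_add_right n M))]
  exact h n ((le_max_right _ _).trans hn)

end curve

/-- Return sets in the plane for orbits which lie on a curve. -/
theorem nondense {d : ℕ} {f : Fin 3 → MvPolynomial (Fin 3) ℂ} (hf : IsEndo d f)
    {a : Fin 3 → ℂ} (ha : a ≠ 0) {e : ℕ} {H : MvPolynomial (Fin 3) ℂ} (hH : H.IsHomogeneous e)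
    (hH0 : H ≠ 0)
    (hn : ∀ n, eval ((fun (x : Fin 3 → ℂ) (i : Fin 3) => eval x (f i))^[n] a) H = 0)
    {S : Set (MvPolynomial (Fin 3) ℂ)} (hS : ∀ g ∈ S, ∃ e, g.IsHomogeneous e) :
    ∃ T : Finset (ℕ × ℕ), {n : ℕ | ∀ g ∈ S,
        eval ((fun (x : Fin 3 → ℂ) (i : Fin 3) => eval x (f i))^[n] a) g = 0} =
      {n : ℕ | ∃ q ∈ T, ∃ m : ℕ, n = q.1 * m + q.2} := by
  obtain ⟨y, hyd⟩ : ∃ y : ℕ → Fin (2 + 1) → ℂ,
      y = fun n => (fun (x : Fin 3 → ℂ) (i : Fin 3) => eval x (f i))^[n] a := ⟨_, rfl⟩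
  have hy : ∀ n, y (n + 1) = fun i => eval (y n) (f i) := by
    intro n
    rw [hyd]
    exact Function.iterate_succ_apply' _ n a
  have hne : ∀ n, y n ≠ 0 := by
    intro n
    induction n with
    | zero =>
      rw [hyd]
      exact ha
    | succ n ih =>
      intro h
      apply ih
      rw [hy] at h
      exact hf.nz _ fun i => congrFun h i
  have hdim : ringKrullDim (MvPolynomial (Fin (2 + 1)) ℂ ⧸ Ideal.span {H}) ≤ (1 + 1 : ℕ) := by
    have hbot : (⊥ : Ideal (MvPolynomial (Fin (2 + 1)) ℂ)).IsPrime := Ideal.isPrime_bot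
    refine krull_quot (P := ⊥) bot_le ?_ ?_
    · intro h
      apply hH0
      have h1 := h (Ideal.subset_span (Set.mem_singleton H))
      rwa [Ideal.mem_bot] at h1
    · rw [ringKrullDim_eq_of_ringEquiv (RingEquiv.quotientBot (MvPolynomial (Fin (2 + 1)) ℂ)),
        MvPolynomial.ringKrullDim_of_isNoetherianRing, ringKrullDim_eq_zero_of_field, zero_add]
      simp
  have hT : Forms ({H} : Set (MvPolynomial (Fin (2 + 1)) ℂ)) := by
    intro g hg
    rw [Set.mem_singleton_iff] at hg
    exact ⟨e, by rw [hg]; exact hH⟩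
  have key : EP (ret y S) := ep_curve (F := f) hf.hom hy hne hT (by
    intro n g hg
    rw [Set.mem_singleton_iff] at hg
    rw [hg, hyd]
    exact hn n) hdim hS
  have h1 := key.fu
  rw [hyd] at h1
  exact h1

end Pool.Agent.Helper36.NI
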