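import Pool.Agent.Helper72.NI.Cong
import Pool.Agent.Helper72.NI.Emb

/-!
# Transcendence degrees

If no form over `K` vanishes at `x` and the coordinates of `x` (with `x i₀ = 1`) are algebraic
over `K(y)` (with `y i₀ = 1`), then no form over `K` vanishes at `y` and the coordinates of `y`
are algebraic over `K(x)`.
-/

set_option autoImplicit false

namespace Pool.Agent.Helper36.NI

open MvPolynomial
open Pool.Agent.Helper72.NI

variable {E : Type} [Field E] {N : ℕ}

section closure

variable [CharZero E]

omit [CharZero E] in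
/-- Algebraicity over a larger ring. -/
theorem alg_transfer {R R' : Type} [CommRing R] [Algebra R E] [CommRing R'] [Algebra R' E]
    {A : Subalgebra R E} {B : Subalgebra R' E} (hle : ∀ a ∈ A, a ∈ B) {z : E}
    (h : IsAlgebraic A z) : IsAlgebraic B z :=
  isAlgebraic_of_map (f := ({ toFun := fun a => ⟨a.1, hle a.1 a.2⟩
                              map_one' := rfl
                              map_mul' := fun _ _ => rfl
                              map_zero' := rfl
                              map_add' := fun _ _ => rfl } : A →+* B))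
    (fun _ _ hab => Subtype.ext (congrArg (fun c : B => (c : E)) hab)) (fun _ => rfl) h

theorem mem_acl_union {K : Subfield E} {S : Set E} {z : E} :
    z ∈ acl ((K : Set E) ∪ S) ↔ IsAlgebraic (Algebra.adjoin K S) z := by
  rw [mem_acl']
  constructor
  · intro h
    refine alg_transfer (fun a ha => ?_) h
    induction ha using Algebra.adjoin_induction with
    | mem x hx =>
      rcases hx with hx | hx
      · exact (Algebra.adjoin K S).algebraMap_mem ⟨x, hx⟩
      · exact Algebra.subset_adjoin hx
    | algebraMap r => exact intCast_mem _ r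
    | add x y _ _ hx hy => exact add_mem hx hy
    | mul x y _ _ hx hy => exact mul_mem hx hy
  · intro h
    refine alg_transfer (fun a ha => ?_) h
    induction ha using Algebra.adjoin_induction with
    | mem x hx => exact Algebra.subset_adjoin (Or.inr hx)
    | algebraMap r => exact Algebra.subset_adjoin (Or.inl r.2)
    | add x y _ _ hx hy => exact add_mem hx hy
    | mul x y _ _ hx hy => exact mul_mem hx hy

theorem coe_acl_union {K : Subfield E} {S : Set E} :
    (acl ((K : Set E) ∪ S) : Set E) = (AlgebraicIndependent.matroid K E).closure S := by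
  rw [AlgebraicIndependent.matroid_closure_eq]
  ext z
  rw [SetLike.mem_coe, mem_acl_union, SetLike.mem_coe]
  exact (Subalgebra.mem_algebraicClosure _ _).symm

/-- A family `x` of algebraically independent elements in the algebraic closure of a family of
the same finite size. -/
theorem exchange_all {K : Subfield E} {J : Type} [Finite J] {x y : J → E}
    (hx : AlgebraicIndependent K x) (h : ∀ j, x j ∈ acl ((K : Set E) ∪ Set.range y)) :
    AlgebraicIndependent K y ∧ ∀ j, y j ∈ acl ((K : Set E) ∪ Set.range x) := by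
  set M := AlgebraicIndependent.matroid K E with hM
  have hX : M.Indep (Set.range x) := by
    rw [hM, AlgebraicIndependent.matroid_indep_iff]
    exact (algebraicIndependent_subtype_range hx.injective).2 hx
  have hsub : Set.range x ⊆ M.closure (Set.range y) := by
    rintro _ ⟨j, rfl⟩
    rw [hM, ← coe_acl_union]
    exact h j
  have hcx : (Set.range x).encard = Nat.card J := by
    rw [← Set.image_univ, hx.injective.encard_image, Set.encard_univ, ENat.card_eq_coe_natCard]
  have hcy : (Set.range y).encard ≤ Nat.card J := by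
    rw [← Set.image_univ]
    refine (Set.encard_image_le _ _).trans ?_
    rw [Set.encard_univ, ENat.card_eq_coe_natCard]
  have h1 : (Nat.card J : ℕ∞) ≤ M.eRk (Set.range y) := by
    rw [← hcx, ← hX.eRk_eq_encard, ← M.eRk_closure_eq (Set.range y)]
    exact M.eRk_mono hsub
  have h2 : M.eRk (Set.range y) = (Set.range y).encard :=
    le_antisymm (M.eRk_le_encard _) (hcy.trans h1)
  have hfin : (Set.range y).Finite := Set.finite_range y
  have hY : M.Indep (Set.range y) := by
    rw [Matroid.indep_iff_eRk_eq_encard_of_finite hfin]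
    exact h2
  have hinj : Function.Injective y := by
    have h3 : (Set.range y).encard = Nat.card J := le_antisymm hcy (h1.trans (M.eRk_le_encard _))
    have h4 : Nat.card (Set.range y) = Nat.card J := by
      have h5 := (hfin.encard_eq_coe_toFinset_card).symm.trans h3
      rw [← Set.ncard_eq_toFinset_card _ hfin] at h5
      exact_mod_cast h5
    have h6 : Function.Bijective (Set.rangeFactorization y) :=
      (Function.Surjective.bijective_of_nat_card_le Set.rangeFactorization_surjective h4.ge)
    intro a b hab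
    exact h6.1 (Subtype.ext hab)
  refine ⟨(algebraicIndependent_subtype_range hinj).1 hY, fun j => ?_⟩
  have h3 : M.IsBasis (Set.range x) (M.closure (Set.range y)) := by
    refine Matroid.Indep.isBasis_of_eRk_ge hX (Set.finite_range x) hsub ?_
    rw [M.eRk_closure_eq, hX.eRk_eq_encard, hcx]
    exact (M.eRk_le_encard _).trans hcy
  have h4 := h3.closure_eq_closure
  rw [Matroid.closure_closure] at h4
  have h5 : y j ∈ M.closure (Set.range y) := M.subset_closure _ (Set.subset_univ _) ⟨j, rfl⟩
  rw [← h4, hM, ← coe_acl_union] at h5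
  exact h5

end closure

section homogenize

theorem eval_mul_hom {F : Type} [Field F] {g : MvPolynomial (Fin (N + 1)) F} {k : ℕ}
    (hg : g.IsHomogeneous k) (c : F) (w : Fin (N + 1) → F) :
    eval (fun i => c * w i) g = c ^ k * eval w g := by
  rw [eval_eq', eval_eq', Finset.mul_sum]
  refine Finset.sum_congr rfl fun m hm => ?_
  have h1 : ∑ i, m i = k := by
    have h2 := hg (mem_support_iff.1 hm)
    rw [Finsupp.weight_apply, Finsupp.sum_fintype _ _ (fun i => by simp)] at h2
    simpa using h2
  rw [Finset.prod_congr rfl fun i _ => mul_pow c (w i) (m i), Finset.prod_mul_distrib,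
    Finset.prod_pow_eq_pow_sum, h1]
  ring

/-- Homogenisation with the variable `i₀`. -/
noncomputable def hmg {R : Type} [CommRing R] (i₀ : Fin (N + 1)) (e : ℕ)
    (g : MvPolynomial (Fin (N + 1)) R) : MvPolynomial (Fin (N + 1)) R :=
  ∑ k ∈ Finset.range (e + 1), X i₀ ^ (e - k) * homogeneousComponent k g

theorem hmg_hom {R : Type} [CommRing R] (i₀ : Fin (N + 1)) (e : ℕ)
    (g : MvPolynomial (Fin (N + 1)) R) : (hmg i₀ e g).IsHomogeneous e := by
  refine IsHomogeneous.sum _ _ _ fun k hk => ?_
  have h1 : e = (e - k) + k := by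
    have := Finset.mem_range.1 hk
    omega
  have h2 : (X i₀ ^ (e - k) * homogeneousComponent k g).IsHomogeneous ((e - k) + k) :=
    (isHomogeneous_X_pow i₀ (e - k)).mul (homogeneousComponent_isHomogeneous k g)
  rwa [← h1] at h2

theorem sum_comp {R : Type} [CommRing R] {e : ℕ} {g : MvPolynomial (Fin (N + 1)) R}
    (he : g.totalDegree ≤ e) : ∑ k ∈ Finset.range (e + 1), homogeneousComponent k g = g := by
  conv_rhs => rw [← sum_homogeneousComponent g]
  symm
  refine Finset.sum_subset (Finset.range_mono (by omega)) fun k _ hk => ?_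
  refine homogeneousComponent_eq_zero _ _ ?_
  rw [Finset.mem_range] at hk
  omega

theorem aeval_hmg {R S : Type} [CommRing R] [CommRing S] [Algebra R S] {i₀ : Fin (N + 1)} {e : ℕ}
    {g : MvPolynomial (Fin (N + 1)) R} (he : g.totalDegree ≤ e) {w : Fin (N + 1) → S}
    (hw : w i₀ = 1) : aeval w (hmg i₀ e g) = aeval w g := by
  conv_rhs => rw [← sum_comp he]
  rw [hmg, map_sum, map_sum]
  refine Finset.sum_congr rfl fun k _ => ?_
  rw [map_mul, map_pow, aeval_X, hw, one_pow, one_mul]

theorem eval_hmg {F : Type} [Field F] {i₀ : Fin (N + 1)} {e : ℕ}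
    {g : MvPolynomial (Fin (N + 1)) F} (he : g.totalDegree ≤ e) {w : Fin (N + 1) → F}
    (hw : w i₀ ≠ 0) : eval w (hmg i₀ e g) = w i₀ ^ e * eval (fun j => w j / w i₀) g := by
  have h1 : w = fun i => w i₀ * (w i / w i₀) := by
    funext i
    rw [mul_div_cancel₀ _ hw]
  have h2 : eval w (hmg i₀ e g) = w i₀ ^ e * eval (fun j => w j / w i₀) (hmg i₀ e g) := by
    conv_lhs => rw [h1]
    exact eval_mul_hom (hmg_hom i₀ e g) _ _
  have h3 := aeval_hmg (S := F) (i₀ := i₀) he (w := fun j => w j / w i₀) (div_self hw)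
  rw [aeval_eq_eval] at h3
  rw [h2]
  exact congrArg _ h3

/-- Setting the variable `i₀` to one. -/
noncomputable def dhm {R : Type} [CommRing R] (i₀ : Fin (N + 1)) (i : Fin (N + 1)) :
    MvPolynomial {j : Fin (N + 1) // j ≠ i₀} R :=
  if h : i ≠ i₀ then X ⟨i, h⟩ else 1

theorem dhm_self {R : Type} [CommRing R] (i₀ : Fin (N + 1)) : dhm (R := R) i₀ i₀ = 1 :=
  dif_neg fun h => h rfl

theorem dhm_val {R : Type} [CommRing R] {i₀ : Fin (N + 1)} (j : {j : Fin (N + 1) // j ≠ i₀}) :
    dhm (R := R) i₀ j.1 = X j := dif_pos j.2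

theorem aeval_dhm {R S : Type} [CommRing R] [CommRing S] [Algebra R S] {i₀ : Fin (N + 1)}
    {w : Fin (N + 1) → S} (hw : w i₀ = 1) (g : MvPolynomial (Fin (N + 1)) R) :
    aeval (fun j : {j : Fin (N + 1) // j ≠ i₀} => w j.1) (aeval (dhm (R := R) i₀) g) =
      aeval w g := by
  have h1 : (aeval (fun j : {j : Fin (N + 1) // j ≠ i₀} => w j.1)).comp (aeval (R := R)
      (dhm (R := R) i₀)) = aeval w := by
    apply algHom_ext
    intro i
    rw [AlgHom.comp_apply, aeval_X, aeval_X]
    by_cases h : i = i₀
    · rw [h, dhm_self, map_one, hw]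
    · rw [dhm_val ⟨i, h⟩, aeval_X]
  exact DFunLike.congr_fun h1 g

end homogenize

section gen

variable {K : Subfield E} {x : Fin (N + 1) → E} {i₀ : Fin (N + 1)}

theorem algInd_of_gen (hx1 : x i₀ = 1) (h : Gen K x) :
    AlgebraicIndependent K fun j : {j : Fin (N + 1) // j ≠ i₀} => x j.1 := by
  rw [algebraicIndependent_iff]
  intro p hp
  by_contra hp0
  set g : MvPolynomial (Fin (N + 1)) K := rename Subtype.val p with hg
  set H := hmg i₀ g.totalDegree g with hH
  have hH0 : H ≠ 0 := by
    intro h0
    have h1 := aeval_hmg (S := MvPolynomial {j : Fin (N + 1) // j ≠ i₀} K) (i₀ := i₀)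
      (le_refl g.totalDegree) (w := dhm i₀) (dhm_self i₀)
    rw [← hH, h0, map_zero, hg, aeval_rename] at h1
    have h2 : (dhm i₀ ∘ Subtype.val : {j : Fin (N + 1) // j ≠ i₀} → _) = (X : _ → MvPolynomial
        {j : Fin (N + 1) // j ≠ i₀} K) := funext fun j => dhm_val j
    rw [h2, aeval_X_left_apply] at h1
    exact hp0 h1.symm
  have h1 := h g.totalDegree (map (algebraMap K E) H) ((hmg_hom i₀ _ g).map _)
    (fun m => by rw [coeff_map]; exact (H.coeff m).2)
    ((MvPolynomial.map_injective _ (algebraMap K E).injective).ne_iff' (map_zero _) |>.2 hH0)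
  apply h1
  have h2 := aeval_hmg (S := E) (i₀ := i₀) (le_refl g.totalDegree) (w := x) hx1
  rw [← hH, hg, aeval_rename] at h2
  rw [eval_map, ← aeval_def, h2]
  exact hp

theorem gen_of_algInd [CharZero E] (hx1 : x i₀ = 1)
    (h : AlgebraicIndependent K fun j : {j : Fin (N + 1) // j ≠ i₀} => x j.1) : Gen K x := by
  intro e H hH hK hH0 h0
  have h1 : H ∈ Set.range (map (σ := Fin (N + 1)) (algebraMap K E)) := by
    rw [mem_range_map_iff_coeffs_subset]
    intro c hc
    obtain ⟨m, -, rfl⟩ := mem_coeffs_iff.1 hc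
    exact ⟨⟨_, hK m⟩, rfl⟩
  obtain ⟨G, rfl⟩ := h1
  have hG : G.IsHomogeneous e := by
    intro m hm
    apply hH
    rw [coeff_map]
    exact (map_ne_zero _).2 hm
  have hG0 : G ≠ 0 := by
    rintro rfl
    exact hH0 (map_zero _)
  have h2 : aeval (dhm (R := K) i₀) G = 0 := by
    apply (algebraicIndependent_iff.1 h)
    rw [aeval_dhm hx1, aeval_def, ← eval_map]
    exact h0
  have h3 : G * X i₀ ≠ 0 := mul_ne_zero hG0 (X_ne_zero _)
  apply h3
  apply MvPolynomial.funext
  intro u
  rw [map_zero, map_mul, eval_X]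
  by_cases hu : u i₀ = 0
  · rw [hu, mul_zero]
  · have h4 : u = fun i => u i₀ * (u i / u i₀) := by
      funext i
      rw [mul_div_cancel₀ _ hu]
    have h5 : eval u G = u i₀ ^ e * eval (fun i => u i / u i₀) G := by
      conv_lhs => rw [h4]
      exact eval_mul_hom hG _ _
    have h6 := aeval_dhm (S := K) (i₀ := i₀) (w := fun i => u i / u i₀) (div_self hu) G
    rw [h2, map_zero, aeval_eq_eval] at h6
    have h7 : eval (fun i => u i / u i₀) G = 0 := h6.symm
    rw [h5, h7, mul_zero, zero_mul]

end gen

end Pool.Agent.Helper36.NI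

namespace Pool.Agent.Helper72.NI

open MvPolynomial Filter
open Pool.Agent.Helper36.NI

section

variable {E : Type} [Field E] [CharZero E] {Γ : Type} [LinearOrderedCommGroupWithZero Γ]
  {v : Valuation E Γ} {k K Ω : Subfield E} {t : E} {N d : ℕ}
  {f φ : Fin (N + 1) → MvPolynomial (Fin (N + 1)) E}

/-- ALG: transcendence degrees. -/
theorem alg_of_gen {K : Subfield E} {x y : Fin (N + 1) → E} {i₀ : Fin (N + 1)} (hx1 : x i₀ = 1)
    (hy1 : y i₀ = 1) (hgx : Gen K x) (hx : ∀ i, x i ∈ acl ((K : Set E) ∪ Set.range y)) :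
    Gen K y ∧ ∀ i, y i ∈ acl ((K : Set E) ∪ Set.range x) := by
  have h1 := algInd_of_gen hx1 hgx
  have hr : ∀ z : Fin (N + 1) → E, z i₀ = 1 → Set.range z ⊆
      acl ((K : Set E) ∪ Set.range fun j : {j : Fin (N + 1) // j ≠ i₀} => z j.1) := by
    rintro z hz _ ⟨i, rfl⟩
    by_cases h : i = i₀
    · rw [h, hz]
      exact one_mem _
    · exact subset_acl _ (Or.inr ⟨⟨i, h⟩, rfl⟩)
  have h2 : ∀ z : Fin (N + 1) → E, z i₀ = 1 → acl ((K : Set E) ∪ Set.range z) ≤
      acl ((K : Set E) ∪ Set.range fun j : {j : Fin (N + 1) // j ≠ i₀} => z j.1) := by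
    intro z hz
    apply acl_le
    rintro b (hb | hb)
    · exact subset_acl _ (Or.inl hb)
    · exact hr z hz hb
  obtain ⟨h3, h4⟩ := exchange_all (K := K)
    (y := fun j : {j : Fin (N + 1) // j ≠ i₀} => y j.1) h1 fun j => h2 y hy1 (hx j.1)
  refine ⟨gen_of_algInd hy1 h3, fun i => ?_⟩
  have h5 : acl ((K : Set E) ∪ Set.range fun j : {j : Fin (N + 1) // j ≠ i₀} => x j.1) ≤
      acl ((K : Set E) ∪ Set.range x) := by
    apply acl_mono
    apply Set.union_subset_union_right
    rintro _ ⟨j, rfl⟩
    exact ⟨j.1, rfl⟩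
  by_cases h : i = i₀
  · rw [h, hy1]
    exact one_mem _
  · exact h5 (h4 ⟨i, h⟩)

end

end Pool.Agent.Helper72.NI
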