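import Pool.Agent.Helper72.NI.Ctx

/-!
# The step NI-FIN

A generic orbit `x` of `f` which is related to an orbit `y` of `φ` over `k` by finitely many
matrices: `f` is conjugate to a map over `k`. Growth of heights for maps over the constants is a
hypothesis here (`hgrow`).
-/

set_option autoImplicit false

namespace Pool.Agent.Helper36.NI

open MvPolynomial Filter
open Pool.Agent.Helper72.NI

section basic

variable {T : Type} [Field T] {N d : ℕ}

/-- Proportional vectors. -/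
def PE (u v : Fin (N + 1) → T) : Prop := ∃ c : T, c ≠ 0 ∧ u = c • v

theorem PE.refl (u : Fin (N + 1) → T) : PE u u := ⟨1, one_ne_zero, (one_smul _ _).symm⟩

theorem PE.symm {u v : Fin (N + 1) → T} (h : PE u v) : PE v u := by
  obtain ⟨c, hc, rfl⟩ := h
  exact ⟨c⁻¹, inv_ne_zero hc, by rw [smul_smul, inv_mul_cancel₀ hc, one_smul]⟩

theorem PE.trans {u v w : Fin (N + 1) → T} (h : PE u v) (h' : PE v w) : PE u w := by
  obtain ⟨c, hc, rfl⟩ := h
  obtain ⟨e, he, rfl⟩ := h'
  exact ⟨c * e, mul_ne_zero hc he, by rw [smul_smul]⟩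

theorem PE.mulVec (g : Matrix (Fin (N + 1)) (Fin (N + 1)) T) {u v : Fin (N + 1) → T}
    (h : PE u v) : PE (g.mulVec u) (g.mulVec v) := by
  obtain ⟨c, hc, rfl⟩ := h
  exact ⟨c, hc, Matrix.mulVec_smul g c v⟩

theorem PE.cross {u v : Fin (N + 1) → T} (h : PE u v) (a b : Fin (N + 1)) :
    u a * v b = u b * v a := by
  obtain ⟨c, hc, rfl⟩ := h
  simp only [Pi.smul_apply, smul_eq_mul]
  ring

theorem pe_of_cross {u v : Fin (N + 1) → T} (hu : u ≠ 0) (hv : v ≠ 0)
    (h : ∀ a b, u a * v b = u b * v a) : PE u v := by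
  obtain ⟨j, hj⟩ := Function.ne_iff.1 hv
  rw [Pi.zero_apply] at hj
  have h4 : u = (u j / v j) • v := by
    funext i
    rw [Pi.smul_apply, smul_eq_mul, div_mul_eq_mul_div, eq_div_iff hj]
    exact h i j
  refine ⟨u j / v j, ?_, h4⟩
  intro h0
  apply hu
  rw [h4, h0, zero_smul]

theorem eval_smul_form {P : MvPolynomial (Fin (N + 1)) T} {e : ℕ} (hP : P.IsHomogeneous e)
    (c : T) (x : Fin (N + 1) → T) : eval (c • x) P = c ^ e * eval x P := by
  rw [eval_eq', eval_eq', Finset.mul_sum]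
  refine Finset.sum_congr rfl fun m hm => ?_
  have h1 : ∑ i, m i = e := by
    have h2 := hP (mem_support_iff.1 hm)
    rw [Finsupp.weight_apply, Finsupp.sum_fintype _ _ (fun i => by simp)] at h2
    simpa using h2
  simp only [Pi.smul_apply, smul_eq_mul, mul_pow]
  rw [Finset.prod_mul_distrib, Finset.prod_pow_eq_pow_sum, h1]
  ring

theorem eval_comp (F : Fin (N + 1) → MvPolynomial (Fin (N + 1)) T)
    (P : MvPolynomial (Fin (N + 1)) T) (x : Fin (N + 1) → T) :
    eval x (aeval F P) = eval (stp F x) P := by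
  induction P using MvPolynomial.induction_on with
  | C a => simp
  | add p q hp hq => rw [map_add, map_add, hp, hq, map_add]
  | mul_X p i hp => rw [map_mul, map_mul, hp, aeval_X, map_mul, eval_X]; rfl

theorem PE.stp {F : Fin (N + 1) → MvPolynomial (Fin (N + 1)) T}
    (hF : ∀ i, (F i).IsHomogeneous d) {u v : Fin (N + 1) → T} (h : PE u v) :
    PE (stp F u) (stp F v) := by
  obtain ⟨c, hc, rfl⟩ := h
  exact ⟨c ^ d, pow_ne_zero _ hc, funext fun i => eval_smul_form (hF i) c v⟩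

theorem PE.eval_ne {u v : Fin (N + 1) → T} (h : PE u v) {P : MvPolynomial (Fin (N + 1)) T}
    {e : ℕ} (hP : P.IsHomogeneous e) (hu : eval u P ≠ 0) : eval v P ≠ 0 := by
  obtain ⟨c, hc, rfl⟩ := h
  intro h0
  apply hu
  rw [eval_smul_form hP, h0, mul_zero]

/-- The linear forms given by a matrix. -/
noncomputable def lin (g : Matrix (Fin (N + 1)) (Fin (N + 1)) T) (i : Fin (N + 1)) :
    MvPolynomial (Fin (N + 1)) T := ∑ j, C (g i j) * X j

theorem lin_hom (g : Matrix (Fin (N + 1)) (Fin (N + 1)) T) (i : Fin (N + 1)) :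
    (lin g i).IsHomogeneous 1 :=
  IsHomogeneous.sum _ _ _ fun j _ => isHomogeneous_C_mul_X (g i j) j

theorem stp_lin (g : Matrix (Fin (N + 1)) (Fin (N + 1)) T) (x : Fin (N + 1) → T) :
    stp (lin g) x = g.mulVec x := by
  funext i
  change eval x (lin g i) = _
  rw [lin, map_sum]
  simp only [map_mul, eval_C, eval_X]
  rfl

theorem mulVec_ne {g : Matrix (Fin (N + 1)) (Fin (N + 1)) T} (hg : g.det ≠ 0)
    {z : Fin (N + 1) → T} (hz : z ≠ 0) : g.mulVec z ≠ 0 := fun h =>
  hz (Matrix.eq_zero_of_mulVec_eq_zero hg h)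

theorem mulVec_inv {g : Matrix (Fin (N + 1)) (Fin (N + 1)) T} (hg : g.det ≠ 0)
    (z : Fin (N + 1) → T) : g⁻¹.mulVec (g.mulVec z) = z := by
  rw [Matrix.mulVec_mulVec, Matrix.nonsing_inv_mul _ (isUnit_iff_ne_zero.2 hg), Matrix.one_mulVec]

theorem inv_mulVec {g : Matrix (Fin (N + 1)) (Fin (N + 1)) T} (hg : g.det ≠ 0)
    (z : Fin (N + 1) → T) : g.mulVec (g⁻¹.mulVec z) = z := by
  rw [Matrix.mulVec_mulVec, Matrix.mul_nonsing_inv _ (isUnit_iff_ne_zero.2 hg), Matrix.one_mulVec]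

theorem inv_det {g : Matrix (Fin (N + 1)) (Fin (N + 1)) T} (hg : g.det ≠ 0) : g⁻¹.det ≠ 0 := by
  have h : g⁻¹.det * g.det = 1 := Matrix.det_nonsing_inv_mul_det _ (isUnit_iff_ne_zero.2 hg)
  exact left_ne_zero_of_mul_eq_one h

theorem lin_ne [Infinite T] {g : Matrix (Fin (N + 1)) (Fin (N + 1)) T} (hg : g.det ≠ 0)
    {H : MvPolynomial (Fin (N + 1)) T} (hH : H ≠ 0) : aeval (lin g) H ≠ 0 := by
  intro h
  apply hH
  refine MvPolynomial.funext fun z => ?_
  have h1 := congrArg (eval (g⁻¹.mulVec z)) h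
  rw [eval_comp, stp_lin, inv_mulVec hg, map_zero] at h1
  rw [h1, map_zero]

/-- A linear form which vanishes at a given vector. -/
theorem exists_linear (hN : 1 ≤ N) {u : Fin (N + 1) → T} (hu : u ≠ 0) :
    ∃ L : MvPolynomial (Fin (N + 1)) T, L.IsHomogeneous 1 ∧ L ≠ 0 ∧ eval u L = 0 := by
  classical
  obtain ⟨a, ha⟩ := Function.ne_iff.1 hu
  rw [Pi.zero_apply] at ha
  obtain ⟨b, hb⟩ : ∃ b : Fin (N + 1), b ≠ a := by
    have : Nontrivial (Fin (N + 1)) := Fin.nontrivial_iff_two_le.2 (by omega)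
    exact exists_ne a
  refine ⟨C (u a) * X b - C (u b) * X a,
    (isHomogeneous_C_mul_X (u a) b).sub (isHomogeneous_C_mul_X (u b) a), ?_, ?_⟩
  · intro h
    have h1 := congrArg (eval (Pi.single b (1 : T))) h
    rw [map_sub, map_mul, map_mul, eval_C, eval_C, eval_X, eval_X, Pi.single_eq_same,
      Pi.single_eq_of_ne hb.symm, mul_one, mul_zero, sub_zero, map_zero] at h1
    exact ha h1
  · rw [map_sub, map_mul, map_mul, eval_C, eval_C, eval_X, eval_X]
    ring

/-- A dense sequence has a generic limit. -/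
theorem exists_generic {x : ℕ → Fin (N + 1) → T}
    (hdense : ∀ (e : ℕ) (H : MvPolynomial (Fin (N + 1)) T), H.IsHomogeneous e → H ≠ 0 →
      ∃ n, eval (x n) H ≠ 0) :
    ∃ U : Ultrafilter ℕ, ∀ (e : ℕ) (H : MvPolynomial (Fin (N + 1)) T), H.IsHomogeneous e →
      H ≠ 0 → ∀ᶠ n in (U : Filter ℕ), eval (x n) H ≠ 0 := by
  have hn : Nonempty {H : MvPolynomial (Fin (N + 1)) T // H ≠ 0 ∧ ∃ e, H.IsHomogeneous e} :=
    ⟨⟨1, one_ne_zero, 0, isHomogeneous_one _ _⟩⟩
  have hne : (⨅ H : {H : MvPolynomial (Fin (N + 1)) T // H ≠ 0 ∧ ∃ e, H.IsHomogeneous e},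
      𝓟 {n | eval (x n) H.1 ≠ 0}).NeBot := by
    apply iInf_neBot_of_directed'
    · rintro ⟨H, h1, e, he⟩ ⟨H', h1', e', he'⟩
      refine ⟨⟨H * H', mul_ne_zero h1 h1', e + e', he.mul he'⟩, ?_, ?_⟩
      · exact principal_mono.2 fun n hn h => hn (by rw [map_mul, h, zero_mul])
      · exact principal_mono.2 fun n hn h => hn (by rw [map_mul, h, mul_zero])
    · rintro ⟨H, h1, e, he⟩
      rw [principal_neBot_iff]
      exact hdense e H he h1
  refine ⟨Ultrafilter.of (⨅ H : {H : MvPolynomial (Fin (N + 1)) T //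
    H ≠ 0 ∧ ∃ e, H.IsHomogeneous e}, 𝓟 {n | eval (x n) H.1 ≠ 0}), fun e H he h1 => ?_⟩
  exact (Ultrafilter.of_le _).trans (iInf_le _ ⟨H, h1, e, he⟩) (mem_principal_self _)

/-- Composition with `f` does not kill forms if there is a dense orbit. -/
theorem comp_ne (hN : 1 ≤ N) {f : Fin (N + 1) → MvPolynomial (Fin (N + 1)) T}
    {x : ℕ → Fin (N + 1) → T} (hx0 : x 0 ≠ 0) (hxs : ∀ n, PE (x (n + 1)) (stp f (x n)))
    (hdense : ∀ (e : ℕ) (H : MvPolynomial (Fin (N + 1)) T), H.IsHomogeneous e → H ≠ 0 →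
      ∃ n, eval (x n) H ≠ 0) {e : ℕ} {H : MvPolynomial (Fin (N + 1)) T} (he : H.IsHomogeneous e)
    (hH : H ≠ 0) : aeval f H ≠ 0 := by
  intro h0
  obtain ⟨L, hL1, hL2, hL3⟩ := exists_linear hN hx0
  obtain ⟨n, hn⟩ := hdense (e + 1) (H * L) (he.mul hL1) (mul_ne_zero hH hL2)
  apply hn
  rw [map_mul]
  cases n with
  | zero => rw [hL3, mul_zero]
  | succ n =>
    have h1 : eval (x (n + 1)) H = 0 := by
      by_contra h2
      have h3 := (hxs n).eval_ne he h2
      rw [← eval_comp, h0, map_zero] at h3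
      exact h3 rfl
    rw [h1, zero_mul]

theorem generic_shift (hN : 1 ≤ N) {f : Fin (N + 1) → MvPolynomial (Fin (N + 1)) T}
    (hf : ∀ i, (f i).IsHomogeneous d)
    {x : ℕ → Fin (N + 1) → T} (hx0 : x 0 ≠ 0) (hxs : ∀ n, PE (x (n + 1)) (stp f (x n)))
    (hdense : ∀ (e : ℕ) (H : MvPolynomial (Fin (N + 1)) T), H.IsHomogeneous e → H ≠ 0 →
      ∃ n, eval (x n) H ≠ 0) {U : Ultrafilter ℕ}
    (hU : ∀ (e : ℕ) (H : MvPolynomial (Fin (N + 1)) T), H.IsHomogeneous e →
      H ≠ 0 → ∀ᶠ n in (U : Filter ℕ), eval (x n) H ≠ 0) (j : ℕ) :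
    ∀ (e : ℕ) (H : MvPolynomial (Fin (N + 1)) T), H.IsHomogeneous e →
      H ≠ 0 → ∀ᶠ n in (U : Filter ℕ), eval (x (n + j)) H ≠ 0 := by
  induction j with
  | zero => exact hU
  | succ j ih =>
    intro e H he hH
    filter_upwards [ih (d * e) (aeval f H) (he.aeval f hf)
      (comp_ne hN hx0 hxs hdense he hH)] with n hn
    rw [eval_comp] at hn
    exact (hxs (n + j)).symm.eval_ne he hn

end basic

section const

variable {T : Type} [Field T] [CharZero T] {k : Subfield T} [IsAlgClosed k] {t : T} {N : ℕ}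

/-- Quotients of combinations, with constant coefficients, of finitely many constants. -/
theorem bdd_quot (ht : t ∉ k) (hT : ∀ z : T, z ∈ acl (insert t (k : Set T)))
    {ι : Type} [Finite ι] (m : ι → Matrix (Fin (N + 1)) (Fin (N + 1)) T) (s : ℕ → ι)
    {c : ℕ → Fin (N + 1) → T} (hc : ∀ n i, c n i ∈ k) (i j : Fin (N + 1)) :
    Bdd k t fun n => ((m (s n)).mulVec (c n)) i / ((m (s n)).mulVec (c n)) j := by
  rw [bdd_iff ht]
  intro V
  obtain ⟨p, hp⟩ := exists_eventually (U := V) (p := fun p n => s n = p)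
    (Eventually.of_forall fun n => ⟨s n, rfl⟩)
  have h1 : ∀ i, gm V (fun n => ((m (s n)).mulVec (c n)) i) ∈
      acl (insert (cst V t) (star V k : Set (Up V T))) := by
    intro i
    have h2 : gm V (fun n => ((m (s n)).mulVec (c n)) i) =
        ∑ l, cst V (m p i l) * gm V (fun n => c n l) := by
      have h3 : gm V (fun n => ((m (s n)).mulVec (c n)) i) =
          gm V (fun n => ∑ l, m p i l * c n l) := by
        rw [gm_eq]
        filter_upwards [hp] with n hn
        rw [hn]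
        rfl
      rw [h3, gm_sum]
      refine Finset.sum_congr rfl fun l _ => ?_
      rw [gm_mul]
      rfl
    rw [h2]
    refine Subfield.sum_mem _ fun l _ => mul_mem ?_ ?_
    · obtain ⟨D, hD⟩ := exists_rel (hT (m p i l))
      exact (bdd_iff ht).1 (Bdd.const hD) V
    · exact subset_acl _ (Set.mem_insert_of_mem _ ⟨fun n => c n l, fun n => hc n l, rfl⟩)
  rw [gm_div]
  exact div_mem (h1 i) (h1 j)

end const

section lattice

variable {T : Type} [Field T] {k : Subfield T} {N : ℕ}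

/-- Solutions of linear equations over `k`. -/
theorem solve {W : Matrix (Fin (N + 1)) (Fin (N + 1)) T} (hW : ∀ i j, W i j ∈ k)
    (hdet : W.det ≠ 0) {u : Fin (N + 1) → T} (hu : ∀ i, W.mulVec u i ∈ k) (l : Fin (N + 1)) :
    u l ∈ k := by
  set W' : Matrix (Fin (N + 1)) (Fin (N + 1)) k := fun i j => ⟨W i j, hW i j⟩ with hW'
  set v' : Fin (N + 1) → k := fun i => ⟨W.mulVec u i, hu i⟩ with hv'
  have h1 : k.subtype.mapMatrix W' = W := by
    ext i j
    rfl
  have h2 : W'.det ≠ 0 := by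
    intro h0
    apply hdet
    rw [← h1, ← RingHom.map_det, h0, map_zero]
  have h3 : W'.mulVec (W'⁻¹.mulVec v') = v' := by
    rw [Matrix.mulVec_mulVec, Matrix.mul_nonsing_inv _ (isUnit_iff_ne_zero.2 h2),
      Matrix.one_mulVec]
  have h4 : W.mulVec (fun j => ((W'⁻¹.mulVec v') j : T)) = W.mulVec u := by
    funext i
    have h5 := congrArg (fun w : k => (w : T)) (congrFun h3 i)
    change ((∑ j, W' i j * (W'⁻¹.mulVec v') j : k) : T) = W.mulVec u i at h5
    push_cast at h5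
    exact h5
  have h5 : (fun j => ((W'⁻¹.mulVec v') j : T)) = u := by
    have h6 := congrArg (W⁻¹.mulVec) h4
    rwa [mulVec_inv hdet, mulVec_inv hdet] at h6
  rw [← h5]
  exact ((W'⁻¹.mulVec v') l).2

/-- A matrix whose columns, and the sum of whose columns, are proportional to vectors over `k` is
proportional to a matrix over `k`. -/
theorem matrix_const {h : Matrix (Fin (N + 1)) (Fin (N + 1)) T} (hdet : h.det ≠ 0)
    {γ : Fin (N + 1) → T} (hγ : ∀ l, γ l ≠ 0) (hcol : ∀ l i, γ l * h i l ∈ k) {c : T}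
    (hsum : ∀ i, c * ∑ l, h i l ∈ k) (i l : Fin (N + 1)) : c * h i l ∈ k := by
  have h1 : ∀ l, c / γ l ∈ k := by
    refine solve (W := fun i l => γ l * h i l) (fun i l => hcol l i) ?_ fun i => ?_
    · have h2 : (fun i l => γ l * h i l : Matrix (Fin (N + 1)) (Fin (N + 1)) T) =
          h * Matrix.diagonal γ := by
        ext i l
        rw [Matrix.mul_diagonal, mul_comm]
      rw [h2, Matrix.det_mul, Matrix.det_diagonal]
      exact mul_ne_zero hdet (Finset.prod_ne_zero_iff.2 fun l _ => hγ l)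
    · have h2 : Matrix.mulVec (fun i l => γ l * h i l) (fun l => c / γ l) i =
          c * ∑ l, h i l := by
        change ∑ l, γ l * h i l * (c / γ l) = _
        rw [Finset.mul_sum]
        refine Finset.sum_congr rfl fun l _ => ?_
        have := hγ l
        field_simp
      rw [h2]
      exact hsum i
  have h2 : c * h i l = c / γ l * (γ l * h i l) := by
    have := hγ l
    field_simp
  rw [h2]
  exact mul_mem (h1 l) (hcol l i)

end lattice

/-- FIN, with the growth of heights as a hypothesis. -/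
theorem fin_step_of {T : Type} [Field T] [IsAlgClosed T] [CharZero T] {k : Subfield T}
    [IsAlgClosed k] {t : T} (ht : t ∉ k) (hT : ∀ z : T, z ∈ acl (insert t (k : Set T)))
    {N d : ℕ} (hN : 1 ≤ N) {f φ : Fin (N + 1) → MvPolynomial (Fin (N + 1)) T}
    (hgrow : ∀ ζ : Fin (N + 1) → T, ζ ≠ 0 → Low k t φ ζ → ∃ c : T, c ≠ 0 ∧ ∀ i, c * ζ i ∈ k)
    (hf : Endo ⊤ d f) (hφ : Endo k d φ) {x y : ℕ → Fin (N + 1) → T}
    (hx0 : ∀ n, x n ≠ 0)
    (hxs : ∀ n, ∃ c : T, c ≠ 0 ∧ x (n + 1) = c • stp f (x n))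
    (hys : ∀ n, ∃ c : T, c ≠ 0 ∧ y (n + 1) = c • stp φ (y n))
    (hdense : ∀ (e : ℕ) (H : MvPolynomial (Fin (N + 1)) T), H.IsHomogeneous e → H ≠ 0 →
      ∃ n, eval (x n) H ≠ 0)
    (G : Finset (Matrix (Fin (N + 1)) (Fin (N + 1)) T)) (hG : ∀ g ∈ G, g.det ≠ 0) {e₀ : ℕ}
    {H₀ : MvPolynomial (Fin (N + 1)) T} (hH₀ : H₀.IsHomogeneous e₀) (hH₀' : H₀ ≠ 0)
    (hfin : ∀ n, eval (x n) H₀ = 0 ∨ ∃ g ∈ G, ∃ c : T, c ≠ 0 ∧ x n = c • g.mulVec (y n)) :
    ∃ (g : Matrix (Fin (N + 1)) (Fin (N + 1)) T)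
      (ψ : Fin (N + 1) → MvPolynomial (Fin (N + 1)) T), g.det ≠ 0 ∧
      (∀ i, (ψ i).IsHomogeneous d) ∧ (∀ i m, (ψ i).coeff m ∈ k) ∧
      ∀ z : Fin (N + 1) → T, z ≠ 0 → ∃ c : T, c ≠ 0 ∧
        stp f (g.mulVec z) = c • g.mulVec (stp ψ z) := by
  classical
  have hinf : Infinite T := IsAlgClosed.instInfinite
  have hxs' : ∀ n, PE (x (n + 1)) (stp f (x n)) := hxs
  have hys' : ∀ n, PE (y (n + 1)) (stp φ (y n)) := hys
  obtain ⟨U, hU⟩ := exists_generic hdense
  have hUx := generic_shift hN hf.hom (hx0 0) hxs' hdense hU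
  -- the matrices
  have ha : ∀ j, ∃ g ∈ G, ∀ᶠ n in (U : Filter ℕ), PE (x (n + j)) (g.mulVec (y (n + j))) := by
    intro j
    obtain ⟨g, hg⟩ := exists_eventually (U := U) (ι := {g // g ∈ G})
      (p := fun g n => PE (x (n + j)) (g.1.mulVec (y (n + j)))) (by
        filter_upwards [hUx j e₀ H₀ hH₀ hH₀'] with n hn
        obtain ⟨g, hg, h⟩ := (hfin (n + j)).resolve_left hn
        exact ⟨⟨g, hg⟩, h⟩)
    exact ⟨g.1, g.2, hg⟩
  choose g hgG hg using ha
  have hgd : ∀ j, (g j).det ≠ 0 := fun j => hG _ (hgG j)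
  -- the second orbit is generic
  have hUy : ∀ (j e : ℕ) (H : MvPolynomial (Fin (N + 1)) T), H.IsHomogeneous e → H ≠ 0 →
      ∀ᶠ n in (U : Filter ℕ), eval (y (n + j)) H ≠ 0 := by
    intro j e H he hH
    filter_upwards [hUx j (1 * e) (aeval (lin (g j)⁻¹) H) (he.aeval _ (lin_hom _))
      (lin_ne (inv_det (hgd j)) hH), hg j] with n hn hn'
    rw [eval_comp, stp_lin] at hn
    have h1 := hn'.mulVec (g j)⁻¹
    rw [mulVec_inv (hgd j)] at h1
    exact h1.eval_ne he hn
  -- the functional equation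
  have hC : ∀ (j : ℕ) (z : Fin (N + 1) → T), z ≠ 0 →
      PE (stp f ((g j).mulVec z)) ((g (j + 1)).mulVec (stp φ z)) := by
    intro j z hz
    refine pe_of_cross (fun h => mulVec_ne (hgd j) hz (hf.nz _ fun i => congrFun h i))
      (mulVec_ne (hgd (j + 1)) fun h => hz (hφ.nz _ fun i => congrFun h i)) fun a b => ?_
    have e1 : ∀ (w : Fin (N + 1) → T) (a : Fin (N + 1)),
        eval w (aeval (lin (g j)) (f a)) = stp f ((g j).mulVec w) a := by
      intro w a
      rw [eval_comp, stp_lin]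
      rfl
    have e2 : ∀ (w : Fin (N + 1) → T) (b : Fin (N + 1)),
        eval w (aeval φ (lin (g (j + 1)) b)) = (g (j + 1)).mulVec (stp φ w) b := by
      intro w b
      rw [eval_comp, ← stp_lin]
      rfl
    have hQ : aeval (lin (g j)) (f a) * aeval φ (lin (g (j + 1)) b) -
        aeval (lin (g j)) (f b) * aeval φ (lin (g (j + 1)) a) = 0 := by
      by_contra hne
      have hhom : (aeval (lin (g j)) (f a) * aeval φ (lin (g (j + 1)) b) -
          aeval (lin (g j)) (f b) * aeval φ (lin (g (j + 1)) a)).IsHomogeneous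
          (1 * d + d * 1) :=
        (((hf.hom a).aeval _ (lin_hom _)).mul ((lin_hom _ b).aeval _ hφ.hom)).sub
          (((hf.hom b).aeval _ (lin_hom _)).mul ((lin_hom _ a).aeval _ hφ.hom))
      obtain ⟨n, hn, hn1, hn2⟩ := ((hUy j _ _ hhom hne).and ((hg j).and (hg (j + 1)))).exists
      apply hn
      have h1 : PE (stp f ((g j).mulVec (y (n + j)))) ((g (j + 1)).mulVec (stp φ (y (n + j)))) :=
        ((hn1.symm.stp hf.hom).trans (hxs' (n + j)).symm).trans
          (hn2.trans ((hys' (n + j)).mulVec _))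
      rw [map_sub, map_mul, map_mul, e1, e1, e2, e2, h1.cross a b, sub_self]
    have h2 := congrArg (eval z) hQ
    rw [map_sub, map_mul, map_mul, e1, e1, e2, e2, map_zero, sub_eq_zero] at h2
    exact h2
  -- the matrices `h j`
  set h : ℕ → Matrix (Fin (N + 1)) (Fin (N + 1)) T := fun j => (g j)⁻¹ * g (j + 1) with hh
  have hhd : ∀ j, (h j).det ≠ 0 := by
    intro j
    rw [hh, Matrix.det_mul]
    exact mul_ne_zero (inv_det (hgd j)) (hgd (j + 1))
  have hgh : ∀ (j : ℕ) (z : Fin (N + 1) → T), (g j).mulVec ((h j).mulVec z) =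
      (g (j + 1)).mulVec z := by
    intro j z
    rw [hh, ← Matrix.mulVec_mulVec, inv_mulVec (hgd j)]
  have hD : ∀ (j : ℕ) (z : Fin (N + 1) → T), z ≠ 0 →
      PE (stp φ ((h j).mulVec z)) ((h (j + 1)).mulVec (stp φ z)) := by
    intro j z hz
    have h1 := hC j _ (mulVec_ne (hhd j) hz)
    rw [hgh] at h1
    have h2 := (h1.symm.trans (hC (j + 1) z hz)).mulVec (g (j + 1))⁻¹
    rw [mulVec_inv (hgd (j + 1)), Matrix.mulVec_mulVec] at h2
    exact h2
  have hitr : ∀ (z : Fin (N + 1) → T), z ≠ 0 → ∀ n, itr φ z n ≠ 0 := by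
    intro z hz n
    induction n with
    | zero => exact hz
    | succ n ih =>
      rw [itr_succ]
      exact fun h => ih (hφ.nz _ fun i => congrFun h i)
  have hE : ∀ (z : Fin (N + 1) → T), z ≠ 0 → ∀ n,
      PE (itr φ ((h 0).mulVec z) n) ((h n).mulVec (itr φ z n)) := by
    intro z hz n
    induction n with
    | zero => exact PE.refl _
    | succ n ih =>
      rw [itr_succ, itr_succ]
      exact (ih.stp hφ.hom).trans (hD n _ (hitr z hz n))
  -- the heights are bounded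
  have hlow : ∀ (z : Fin (N + 1) → T), z ≠ 0 → (∀ i, z i ∈ k) → Low k t φ ((h 0).mulVec z) := by
    intro z hz hzk
    have hck : ∀ n i, itr φ z n i ∈ k := by
      intro n
      induction n with
      | zero => exact hzk
      | succ n ih =>
        intro i
        rw [itr_succ]
        change eval (itr φ z n) (φ i) ∈ k
        rw [eval_eq']
        exact Subfield.sum_mem _ fun m _ => mul_mem (hφ.coeff i m)
          (Subfield.prod_mem _ fun j _ => pow_mem (ih j) _)
    have hB : ∀ p : Fin (N + 1) × Fin (N + 1), Bdd k t fun n =>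
        ((h n).mulVec (itr φ z n)) p.1 / ((h n).mulVec (itr φ z n)) p.2 := fun p =>
      bdd_quot ht hT (ι := {g // g ∈ G} × {g // g ∈ G}) (fun q => (q.1.1)⁻¹ * q.2.1)
        (fun n => (⟨g n, hgG n⟩, ⟨g (n + 1), hgG (n + 1)⟩)) hck p.1 p.2
    choose D hD' using hB
    refine ⟨Finset.univ.sup D, fun n i j _ => ?_⟩
    have h1 := (hD' (i, j) n).mono (Finset.le_sup (f := D) (Finset.mem_univ (i, j)))
    obtain ⟨c, hc, hcz⟩ := hE z hz n
    have h2 : itr φ ((h 0).mulVec z) n i / itr φ ((h 0).mulVec z) n j =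
        ((h n).mulVec (itr φ z n)) i / ((h n).mulVec (itr φ z n)) j := by
      rw [hcz, Pi.smul_apply, Pi.smul_apply, smul_eq_mul, smul_eq_mul, mul_div_mul_left _ _ hc]
    rw [h2]
    exact h1
  -- the matrix `h 0` is defined over `k`
  have hcol : ∀ l, ∃ c : T, c ≠ 0 ∧ ∀ i, c * h 0 i l ∈ k := by
    intro l
    have hne : (Pi.single l (1 : T) : Fin (N + 1) → T) ≠ 0 := by
      intro h0
      have := congrFun h0 l
      rw [Pi.single_eq_same] at this
      exact one_ne_zero this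
    obtain ⟨c, hc, hck⟩ := hgrow _ (mulVec_ne (hhd 0) hne) (hlow _ hne (by
      intro i
      by_cases hil : i = l
      · subst hil
        rw [Pi.single_eq_same]
        exact one_mem k
      · rw [Pi.single_eq_of_ne hil]
        exact zero_mem k))
    refine ⟨c, hc, fun i => ?_⟩
    have h1 := hck i
    rw [Matrix.mulVec_single_one] at h1
    exact h1
  choose γ hγ hγk using hcol
  obtain ⟨c, hc, hck⟩ : ∃ c : T, c ≠ 0 ∧ ∀ i, c * ∑ l, h 0 i l ∈ k := by
    have hne : (fun _ => (1 : T) : Fin (N + 1) → T) ≠ 0 := fun h0 =>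
      one_ne_zero (congrFun h0 0)
    obtain ⟨c, hc, hck⟩ := hgrow _ (mulVec_ne (hhd 0) hne) (hlow _ hne fun _ => one_mem k)
    refine ⟨c, hc, fun i => ?_⟩
    have h1 : (h 0).mulVec (fun _ => (1 : T)) i = ∑ l, h 0 i l := by
      change ∑ l, h 0 i l * 1 = _
      exact Finset.sum_congr rfl fun l _ => mul_one _
    rw [← h1]
    exact hck i
  have hck' : ∀ i l, c * h 0 i l ∈ k := matrix_const (hhd 0) hγ (fun l i => hγk l i) hck
  -- the map over `k`
  refine ⟨g 0, fun i => ∑ l, C (c * h 0 i l) * φ l, hgd 0, ?_, ?_, ?_⟩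
  · intro i
    exact IsHomogeneous.sum _ _ _ fun l _ => (hφ.hom l).C_mul _
  · intro i m
    rw [coeff_sum]
    refine Subfield.sum_mem _ fun l _ => ?_
    rw [coeff_C_mul]
    exact mul_mem (hck' i l) (hφ.coeff l m)
  · intro z hz
    have h1 := hC 0 z hz
    rw [← hgh 0] at h1
    have h2 : stp (fun i => ∑ l, C (c * h 0 i l) * φ l) z = c • (h 0).mulVec (stp φ z) := by
      funext i
      change eval z (∑ l, C (c * h 0 i l) * φ l) = c * ∑ l, h 0 i l * eval z (φ l)
      rw [map_sum, Finset.mul_sum]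
      refine Finset.sum_congr rfl fun l _ => ?_
      rw [map_mul, eval_C]
      ring
    rw [h2]
    have h3 : PE ((g 0).mulVec ((h 0).mulVec (stp φ z)))
        ((g 0).mulVec (c • (h 0).mulVec (stp φ z))) :=
      PE.mulVec _ ⟨c⁻¹, inv_ne_zero hc, by rw [smul_smul, inv_mul_cancel₀ hc, one_smul]⟩
    exact h1.trans h3

end Pool.Agent.Helper36.NI
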