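import Pool.Agent.Helper36.NI.Alg
import Pool.Agent.Helper72.NI.Germ

/-!
# One relation for all times

A sequence `z` which is algebraic over the quotients of coordinates of `x`, along every
ultrafilter which is generic for `x`, satisfies one polynomial relation with forms in `x` as
coefficients, at all times at which one form does not vanish.
-/

set_option autoImplicit false

namespace Pool.Agent.Helper36.NI

open MvPolynomial Filter
open Pool.Agent.Helper72.NI

variable {T : Type} [Field T] {N : ℕ}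

theorem eval_gm {U : Ultrafilter ℕ} (w : Fin (N + 1) → ℕ → T)
    (g : MvPolynomial (Fin (N + 1)) T) :
    eval₂ (cst (E := T) U) (fun j => gm U (w j)) g = gm U fun n => eval (fun j => w j n) g := by
  induction g using MvPolynomial.induction_on with
  | C a =>
    rw [eval₂_C]
    simp only [eval_C]
    rfl
  | add p q hp hq =>
    rw [eval₂_add, hp, hq, ← gm_add]
    simp only [map_add]
  | mul_X p i hp =>
    rw [eval₂_mul, eval₂_X, hp, ← gm_mul]
    simp only [map_mul, eval_X]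

/-- All coefficients are forms of degree `e`. -/
def PH (e : ℕ) (p : Polynomial (MvPolynomial (Fin (N + 1)) T)) : Prop :=
  ∀ s, (p.coeff s).IsHomogeneous e

theorem PH.mul {e e' : ℕ} {p q : Polynomial (MvPolynomial (Fin (N + 1)) T)} (hp : PH e p)
    (hq : PH e' q) : PH (e + e') (p * q) := by
  intro s
  rw [Polynomial.coeff_mul]
  exact IsHomogeneous.sum _ _ _ fun a _ => (hp a.1).mul (hq a.2)

/-- The times at which `p` is a relation for `z`. -/
def Rl (x : ℕ → Fin (N + 1) → T) (z : ℕ → T)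
    (p : Polynomial (MvPolynomial (Fin (N + 1)) T)) : Set ℕ :=
  {n | p.map (eval (x n)) ≠ 0 ∧ (p.map (eval (x n))).eval (z n) = 0}

theorem map_ne_zero_of_lead {x : Fin (N + 1) → T}
    {p : Polynomial (MvPolynomial (Fin (N + 1)) T)} (h : eval x p.leadingCoeff ≠ 0) :
    p.map (eval x) ≠ 0 := by
  intro h0
  apply h
  rw [Polynomial.leadingCoeff, ← Polynomial.coeff_map, h0, Polynomial.coeff_zero]

/-- Compactness. -/
theorem exists_unif_poly {x : ℕ → Fin (N + 1) → T} {z : ℕ → T}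
    (h : ∀ U : Ultrafilter ℕ,
      (∀ (e : ℕ) (H : MvPolynomial (Fin (N + 1)) T), H.IsHomogeneous e → H ≠ 0 →
        ∀ᶠ n in (U : Filter ℕ), eval (x n) H ≠ 0) →
      ∃ e p, PH e p ∧ p ≠ 0 ∧ ∀ᶠ n in (U : Filter ℕ), n ∈ Rl x z p) :
    ∃ (e : ℕ) (p : Polynomial (MvPolynomial (Fin (N + 1)) T)) (e' : ℕ)
      (H : MvPolynomial (Fin (N + 1)) T), PH e p ∧ H.IsHomogeneous e' ∧ H ≠ 0 ∧
      ∀ n, eval (x n) H ≠ 0 → n ∈ Rl x z p := by
  by_contra hcon
  let I := {a : MvPolynomial (Fin (N + 1)) T × Polynomial (MvPolynomial (Fin (N + 1)) T) //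
    (∃ e', a.1.IsHomogeneous e') ∧ a.1 ≠ 0 ∧ (∃ e, PH e a.2) ∧ a.2 ≠ 0}
  let s : I → Set ℕ := fun a => {n | eval (x n) a.1.1 ≠ 0 ∧ n ∉ Rl x z a.1.2}
  have hs : ∀ a, (s a).Nonempty := by
    intro a
    by_contra hne
    apply hcon
    obtain ⟨e', he'⟩ := a.2.1
    obtain ⟨e, he⟩ := a.2.2.2.1
    refine ⟨e, a.1.2, e', a.1.1, he, he', a.2.2.1, fun n hn => ?_⟩
    by_contra hn'
    exact hne ⟨n, hn, hn'⟩
  have hone : PH 0 (1 : Polynomial (MvPolynomial (Fin (N + 1)) T)) := by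
    intro s
    rw [Polynomial.coeff_one]
    split_ifs
    · exact isHomogeneous_one _ _
    · exact isHomogeneous_zero _ _ _
  have hdir : Directed (· ≥ ·) fun a => 𝓟 (s a) := by
    intro a b
    obtain ⟨ea', hea'⟩ := a.2.1
    obtain ⟨ea, hea⟩ := a.2.2.2.1
    obtain ⟨eb', heb'⟩ := b.2.1
    obtain ⟨eb, heb⟩ := b.2.2.2.1
    let c : I := ⟨(a.1.1 * b.1.1 * (a.1.2.leadingCoeff * b.1.2.leadingCoeff), a.1.2 * b.1.2),
      ⟨_, (hea'.mul heb').mul ((hea _).mul (heb _))⟩,
      mul_ne_zero (mul_ne_zero a.2.2.1 b.2.2.1) (mul_ne_zero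
        (Polynomial.leadingCoeff_ne_zero.2 a.2.2.2.2) (Polynomial.leadingCoeff_ne_zero.2
          b.2.2.2.2)), ⟨_, hea.mul heb⟩, mul_ne_zero a.2.2.2.2 b.2.2.2.2⟩
    have hc : ∀ n ∈ s c, eval (x n) a.1.1 ≠ 0 ∧ eval (x n) b.1.1 ≠ 0 ∧
        a.1.2.map (eval (x n)) ≠ 0 ∧ b.1.2.map (eval (x n)) ≠ 0 ∧
        ((a.1.2 * b.1.2).map (eval (x n))).eval (z n) ≠ 0 := by
      intro n hn
      have h1 : eval (x n) (a.1.1 * b.1.1 * (a.1.2.leadingCoeff * b.1.2.leadingCoeff)) ≠ 0 := hn.1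
      have h2 : n ∉ Rl x z (a.1.2 * b.1.2) := hn.2
      rw [map_mul, map_mul, map_mul] at h1
      have h3 := left_ne_zero_of_mul h1
      have h4 := right_ne_zero_of_mul h1
      have h5 := map_ne_zero_of_lead (left_ne_zero_of_mul h4)
      have h6 := map_ne_zero_of_lead (right_ne_zero_of_mul h4)
      refine ⟨left_ne_zero_of_mul h3, right_ne_zero_of_mul h3, h5, h6, fun h7 => h2 ⟨?_, h7⟩⟩
      rw [Polynomial.map_mul]
      exact mul_ne_zero h5 h6
    refine ⟨c, ?_, ?_⟩
    · refine principal_mono.2 fun n hn => ?_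
      obtain ⟨h1, -, -, -, h5⟩ := hc n hn
      refine ⟨h1, fun h6 => h5 ?_⟩
      rw [Polynomial.map_mul, Polynomial.eval_mul, h6.2, zero_mul]
    · refine principal_mono.2 fun n hn => ?_
      obtain ⟨-, h1, -, -, h5⟩ := hc n hn
      refine ⟨h1, fun h6 => h5 ?_⟩
      rw [Polynomial.map_mul, Polynomial.eval_mul, h6.2, mul_zero]
  have hI : Nonempty I := ⟨⟨(1, 1), ⟨0, isHomogeneous_one _ _⟩, one_ne_zero, ⟨0, hone⟩,
    one_ne_zero⟩⟩
  have hne : NeBot (⨅ a, 𝓟 (s a)) :=
    iInf_neBot_of_directed' hdir fun a => principal_neBot_iff.2 (hs a)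
  let U : Ultrafilter ℕ := Ultrafilter.of (⨅ a, 𝓟 (s a))
  have hU : ∀ a, s a ∈ (U : Filter ℕ) := fun a =>
    (Ultrafilter.of_le (⨅ a, 𝓟 (s a))) (mem_iInf_of_mem a (mem_principal_self _))
  obtain ⟨e, p, hp, hp0, hpU⟩ := h U (fun e H hH hH0 => by
    have h1 := hU ⟨(H, 1), ⟨e, hH⟩, hH0, ⟨0, hone⟩, one_ne_zero⟩
    filter_upwards [h1] with n hn
    exact hn.1)
  have h1 := hU ⟨(1, p), ⟨0, isHomogeneous_one _ _⟩, one_ne_zero, ⟨e, hp⟩, hp0⟩
  obtain ⟨n, hn⟩ := ((show ∀ᶠ n in (U : Filter ℕ), n ∈ s _ from h1).and hpU).exists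
  exact hn.1.2 hn.2

/-- Elements of the ring generated by the constants and the quotients. -/
theorem exists_poly_of_adjoin {U : Ultrafilter ℕ} {w : Fin (N + 1) → ℕ → T} {a : Up U T}
    (ha : a ∈ Algebra.adjoin ℤ (((cst (E := T) U).fieldRange : Set (Up U T)) ∪
      Set.range fun j => gm U (w j))) :
    ∃ g : MvPolynomial (Fin (N + 1)) T, gm U (fun n => eval (fun j => w j n) g) = a := by
  have h1 : ∃ g : MvPolynomial (Fin (N + 1)) T,
      eval₂ (cst (E := T) U) (fun j => gm U (w j)) g = a := by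
    induction ha using Algebra.adjoin_induction with
    | mem x hx =>
      rcases hx with hx | ⟨j, rfl⟩
      · obtain ⟨c, rfl⟩ := hx
        exact ⟨C c, eval₂_C _ _ _⟩
      · exact ⟨X j, eval₂_X _ _ _⟩
    | algebraMap r => exact ⟨C (r : T), by rw [eval₂_C]; simp⟩
    | add x y _ _ hx hy =>
      obtain ⟨q, rfl⟩ := hx
      obtain ⟨r, rfl⟩ := hy
      exact ⟨q + r, eval₂_add _ _⟩
    | mul x y _ _ hx hy =>
      obtain ⟨q, rfl⟩ := hx
      obtain ⟨r, rfl⟩ := hy
      exact ⟨q * r, eval₂_mul _ _⟩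
  obtain ⟨g, hg⟩ := h1
  exact ⟨g, by rw [← eval_gm, hg]⟩

/-- An algebraic element satisfies a relation. -/
theorem exists_relation [CharZero T] {U : Ultrafilter ℕ} {x : ℕ → Fin (N + 1) → T} {z : ℕ → T}
    {i₀ : Fin (N + 1)} (hi : ∀ᶠ n in (U : Filter ℕ), x n i₀ ≠ 0)
    (hz : gm U z ∈ acl (((cst (E := T) U).fieldRange : Set (Up U T)) ∪
      Set.range fun j => gm U fun n => x n j / x n i₀)) :
    ∃ (e : ℕ) (p : Polynomial (MvPolynomial (Fin (N + 1)) T)), PH e p ∧ p ≠ 0 ∧
      ∀ᶠ n in (U : Filter ℕ), n ∈ Rl x z p := by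
  rw [mem_acl'] at hz
  obtain ⟨P, hP0, hP⟩ := hz
  have hle : ∀ s, ∃ g : MvPolynomial (Fin (N + 1)) T,
      gm U (fun n => eval (fun j => x n j / x n i₀) g) = (P.coeff s : Up U T) := fun s =>
    exists_poly_of_adjoin (w := fun j n => x n j / x n i₀) (P.coeff s).2
  choose g hg using hle
  set D := P.natDegree with hD
  set e := ∑ s ∈ Finset.range (D + 1), (g s).totalDegree with he
  have hdeg : ∀ s ∈ Finset.range (D + 1), (g s).totalDegree ≤ e := fun s hs =>
    Finset.single_le_sum (f := fun s => (g s).totalDegree) (fun _ _ => Nat.zero_le _) hs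
  let p : Polynomial (MvPolynomial (Fin (N + 1)) T) :=
    ∑ s ∈ Finset.range (D + 1), Polynomial.monomial s (hmg i₀ e (g s))
  have hcoeff : ∀ s, p.coeff s = if s ∈ Finset.range (D + 1) then hmg i₀ e (g s) else 0 := by
    intro s
    simp only [p, Polynomial.finsetSum_coeff, Polynomial.coeff_monomial]
    rw [Finset.sum_ite_eq']
  have hPH : PH e p := by
    intro s
    rw [hcoeff]
    split_ifs
    · exact hmg_hom _ _ _
    · exact isHomogeneous_zero _ _ _
  -- a nonzero coefficient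
  have hlead : (P.coeff D : Up U T) ≠ 0 := by
    intro h0
    apply hP0
    rw [← Polynomial.leadingCoeff_eq_zero]
    exact Subtype.ext h0
  have h1 : ∀ᶠ n in (U : Filter ℕ), eval (fun j => x n j / x n i₀) (g D) ≠ 0 := by
    rw [← hg D, Ne, gm_eq_zero, ← Ultrafilter.eventually_not] at hlead
    exact hlead
  -- the relation
  have h2 : ∀ᶠ n in (U : Filter ℕ), ∑ s ∈ Finset.range (D + 1),
      eval (fun j => x n j / x n i₀) (g s) * z n ^ s = 0 := by
    rw [← gm_eq_zero, gm_sum]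
    rw [Polynomial.aeval_eq_sum_range] at hP
    rw [← hP]
    refine Finset.sum_congr rfl fun s _ => ?_
    rw [gm_mul, gm_pow, hg, Algebra.smul_def]
    rfl
  have h3 : ∀ᶠ n in (U : Filter ℕ), n ∈ Rl x z p := by
    filter_upwards [hi, h1, h2] with n hn0 hn1 hn2
    have hval : ∀ s ∈ Finset.range (D + 1), eval (x n) (p.coeff s) =
        x n i₀ ^ e * eval (fun j => x n j / x n i₀) (g s) := by
      intro s hs
      rw [hcoeff, if_pos hs, eval_hmg (hdeg s hs) hn0]
    refine ⟨fun h0 => ?_, ?_⟩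
    · have h4 : (p.map (eval (x n))).coeff D = 0 := by rw [h0, Polynomial.coeff_zero]
      rw [Polynomial.coeff_map, hval D (Finset.self_mem_range_succ D)] at h4
      exact mul_ne_zero (pow_ne_zero _ hn0) hn1 h4
    · have h4 : p.map (eval (x n)) = ∑ s ∈ Finset.range (D + 1),
          Polynomial.monomial s (x n i₀ ^ e * eval (fun j => x n j / x n i₀) (g s)) := by
        simp only [p, Polynomial.map_sum, Polynomial.map_monomial]
        refine Finset.sum_congr rfl fun s hs => ?_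
        rw [eval_hmg (hdeg s hs) hn0]
      rw [h4, Polynomial.eval_finsetSum]
      have h5 : ∑ s ∈ Finset.range (D + 1), Polynomial.eval (z n) (Polynomial.monomial s
          (x n i₀ ^ e * eval (fun j => x n j / x n i₀) (g s))) =
          x n i₀ ^ e * ∑ s ∈ Finset.range (D + 1),
            eval (fun j => x n j / x n i₀) (g s) * z n ^ s := by
        rw [Finset.mul_sum]
        refine Finset.sum_congr rfl fun s _ => ?_
        rw [Polynomial.eval_monomial]
        ring
      rw [h5, hn2, mul_zero]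
  refine ⟨e, p, hPH, ?_, h3⟩
  rintro hp0
  obtain ⟨n, hn⟩ := h3.exists
  exact hn.1 (by rw [hp0, Polynomial.map_zero])

end Pool.Agent.Helper36.NI

namespace Pool.Agent.Helper72.NI

open MvPolynomial Filter
open Pool.Agent.Helper36.NI

/-- UNI: one relation for all `n`, by compactness over all ultrafilters. -/
theorem exists_unif {T : Type} [Field T] [CharZero T] {N : ℕ} {x y : ℕ → Fin (N + 1) → T}
    (hx0 : ∀ n, x n ≠ 0)
    (hdense : ∀ (e : ℕ) (H : MvPolynomial (Fin (N + 1)) T), H.IsHomogeneous e → H ≠ 0 →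
      ∃ n, eval (x n) H ≠ 0) (i l : Fin (N + 1))
    (halg : ∀ U : Ultrafilter ℕ,
      (∀ (e : ℕ) (H : MvPolynomial (Fin (N + 1)) T), H.IsHomogeneous e → H ≠ 0 →
        ∀ᶠ n in (U : Filter ℕ), eval (x n) H ≠ 0) →
      ∀ i₀ : Fin (N + 1), (gm U fun n => y n i / y n l) ∈
        acl (((cst (E := T) U).fieldRange : Set (Up U T)) ∪
          Set.range fun j => gm U fun n => x n j / x n i₀)) :
    ∃ (q e : ℕ) (P : Fin (q + 1) → MvPolynomial (Fin (N + 1)) T) (e' : ℕ)
      (H : MvPolynomial (Fin (N + 1)) T), (∀ s, (P s).IsHomogeneous e) ∧ H.IsHomogeneous e' ∧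
      H ≠ 0 ∧ ∀ n, eval (x n) H ≠ 0 → (∃ s, eval (x n) (P s) ≠ 0) ∧
        ∑ s, eval (x n) (P s) * (y n i / y n l) ^ (s : ℕ) = 0 := by
  obtain ⟨e, p, e', H, hp, hH, hH0, h⟩ := exists_unif_poly (x := x)
    (z := fun n => y n i / y n l) (fun U hU => exists_relation (i₀ := 0) (by
      have h1 := hU 1 (X 0) (isHomogeneous_X _ _) (X_ne_zero _)
      filter_upwards [h1] with n hn
      rwa [eval_X] at hn) (halg U hU 0))
  refine ⟨p.natDegree, e, fun s => p.coeff s, e', H, fun s => hp s, hH, hH0, fun n hn => ?_⟩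
  obtain ⟨h1, h2⟩ := h n hn
  constructor
  · by_contra hcon
    push Not at hcon
    apply h1
    ext s
    rw [Polynomial.coeff_map, Polynomial.coeff_zero]
    by_cases hs : s < p.natDegree + 1
    · exact hcon ⟨s, hs⟩
    · rw [Polynomial.coeff_eq_zero_of_natDegree_lt (by omega), map_zero]
  · rw [← h2, Polynomial.eval_eq_sum_range' (n := p.natDegree + 1)
      (lt_of_le_of_lt Polynomial.natDegree_map_le (Nat.lt_succ_self _)), ← Fin.sum_univ_eq_sum_range
        (fun s => (p.map (eval (x n))).coeff s * (y n i / y n l) ^ s)]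
    refine Finset.sum_congr rfl fun s _ => ?_
    rw [Polynomial.coeff_map]

end Pool.Agent.Helper72.NI
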